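import Mathlib

set_option autoImplicit false

/-!
There are infinitely many positive integers `n` for which the abcd equation
`n = (a/b + b/a)(c/d + d/c)` is solvable in positive integers while the integer form
`n = (a + 1/a)(b + 1/b)` is not.

Outline.  If the integer form is solvable for `n` then `n = m ^ 2 + 4` for an integer `m`
(Vieta jumping).  The pairs `(u, v)` with `u ∣ v ^ 4 + 1`, `v ∣ u ^ 4 + 1` give solutions of the
abcd equation for `n = ((u ^ 2 + v ^ 2) ^ 2 + 1) / (u v)`, and the map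
`(u, v) ↦ (v, (v ^ 4 + 1) / u)` acts on residues mod `23`; the residue class of `(41, 137)` has
period three, and for it `n - 4` is not a square mod `23`.
-/

namespace Pool.Agent.Results.MP_2bef4d_nt.InfinitelyMany

/-- Vieta jumping: `a ^ 2 + b ^ 2 + 1 = k a b` forces `k = 3`. -/
theorem vieta (s : ℕ) : ∀ a b k : ℕ, a + b ≤ s → 0 < a → 0 < b →
    a ^ 2 + b ^ 2 + 1 = k * (a * b) → k = 3 := by
  induction s with
  | zero => intro a b k h ha hb; omega
  | succ s ih =>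
    intro a b k h ha hb hk
    rcases lt_trichotomy a b with hab | hab | hab
    · -- a < b : replace b by k a - b
      have h1 : b < k * a := by
        by_contra hcon
        push Not at hcon
        have : k * (a * b) ≤ b * b := by nlinarith
        nlinarith
      have h2 : b * (k * a - b) = a ^ 2 + 1 := by
        zify [h1.le]
        zify at hk
        linarith
      have h3 : k * a - b < b := by
        by_contra hcon
        push Not at hcon
        have : b * b ≤ b * (k * a - b) := Nat.mul_le_mul_left _ hcon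
        nlinarith
      refine ih a (k * a - b) k (by omega) ha (by omega) ?_
      zify [h1.le]
      zify at hk
      linear_combination hk
    · subst hab
      have h1 : a ^ 2 ∣ 1 := by
        have : (a ^ 2 : ℕ) ∣ a ^ 2 + a ^ 2 + 1 := by
          rw [hk]; exact ⟨k, by ring⟩
        have h2 : a ^ 2 ∣ a ^ 2 + a ^ 2 := ⟨2, by ring⟩
        exact (Nat.dvd_add_right h2).1 this
      have h2 : a ^ 2 = 1 := Nat.dvd_one.1 h1
      have h3 : a = 1 := by nlinarith
      subst h3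
      omega
    · -- b < a
      have h1 : a < k * b := by
        by_contra hcon
        push Not at hcon
        have : k * (a * b) ≤ a * a := by nlinarith
        nlinarith
      have h2 : a * (k * b - a) = b ^ 2 + 1 := by
        zify [h1.le]
        zify at hk
        linarith
      have h3 : k * b - a < a := by
        by_contra hcon
        push Not at hcon
        have : a * a ≤ a * (k * b - a) := Nat.mul_le_mul_left _ hcon
        nlinarith
      refine ih (k * b - a) b k (by omega) (by omega) hb ?_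
      zify [h1.le]
      zify at hk
      linear_combination hk

/-- If the integer form is solvable for `n`, then `n - 4` is a square. -/
theorem integer_form_sq (n : ℕ) (a b : ℕ) (ha : 0 < a) (hb : 0 < b)
    (h : (n : ℚ) = ((a : ℚ) + (a : ℚ)⁻¹) * ((b : ℚ) + (b : ℚ)⁻¹)) :
    ∃ m : ℤ, (n : ℤ) = m ^ 2 + 4 := by
  have ha' : (a : ℚ) ≠ 0 := by positivity
  have hb' : (b : ℚ) ≠ 0 := by positivity
  have h1 : (n : ℚ) * (a * b) = (a ^ 2 + 1) * (b ^ 2 + 1) := by
    rw [h]; field_simp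
  have h2 : n * (a * b) = (a ^ 2 + 1) * (b ^ 2 + 1) := by exact_mod_cast h1
  -- a * b divides a ^ 2 + b ^ 2 + 1
  have h3 : a * b ∣ a ^ 2 + b ^ 2 + 1 := by
    have : a * b ∣ (a * b) * (a * b) + (a ^ 2 + b ^ 2 + 1) := by
      have e : (a * b) * (a * b) + (a ^ 2 + b ^ 2 + 1) = n * (a * b) := by rw [h2]; ring
      rw [e]; exact Dvd.intro_left n rfl
    exact (Nat.dvd_add_right (Dvd.intro _ rfl)).1 this
  obtain ⟨k, hk⟩ := h3
  have hk3 : k = 3 := vieta (a + b) a b k le_rfl ha hb (by rw [hk]; ring)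
  subst hk3
  refine ⟨(a : ℤ) - b, ?_⟩
  have hab : (0 : ℤ) < (a : ℤ) * b := by positivity
  have h4 : (n : ℤ) * (a * b) = (a ^ 2 + 1) * (b ^ 2 + 1) := by exact_mod_cast h2
  have h5 : (a : ℤ) ^ 2 + b ^ 2 + 1 = a * b * 3 := by exact_mod_cast hk
  have h6 : (n : ℤ) * (a * b) = (((a : ℤ) - b) ^ 2 + 4) * (a * b) := by
    rw [h4]
    linear_combination (1 : ℤ) * h5 - (a * b : ℤ) * h5
  exact mul_right_cancel₀ hab.ne' h6

/-- The property of pairs propagated by the recursion. -/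
def Good (u v : ℕ) : Prop := 0 < u ∧ u < v ∧ u ∣ v ^ 4 + 1 ∧ v ∣ u ^ 4 + 1

theorem good_step (u v : ℕ) (h : Good u v) :
    ∃ w : ℕ, u * w = v ^ 4 + 1 ∧ Good v w := by
  obtain ⟨hu, huv, ⟨w, hw⟩, hvu⟩ := h
  have hv : 0 < v := hu.trans huv
  refine ⟨w, hw.symm, hv, ?_, ?_, ?_⟩
  · -- v < w
    by_contra hcon
    push Not at hcon
    have h1 : u * w ≤ v * v := Nat.mul_le_mul huv.le hcon
    have h2 : v * v ≤ v ^ 4 := by
      have : 1 ≤ v * v := Nat.mul_pos hv hv
      calc v * v = (v * v) * 1 := by ring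
        _ ≤ (v * v) * (v * v) := Nat.mul_le_mul_left _ this
        _ = v ^ 4 := by ring
    omega
  · -- v ∣ w ^ 4 + 1
    have hcop : IsCoprime (v : ℤ) ((u : ℤ) ^ 4) := by
      obtain ⟨t, ht⟩ := hvu
      refine ⟨(t : ℤ), -1, ?_⟩
      have : (u : ℤ) ^ 4 + 1 = v * t := by exact_mod_cast ht
      linear_combination (-1 : ℤ) * this
    have hdvd : (v : ℤ) ∣ (u : ℤ) ^ 4 * ((w : ℤ) ^ 4 + 1) := by
      obtain ⟨t, ht⟩ := hvu
      have h1 : (u : ℤ) ^ 4 + 1 = v * t := by exact_mod_cast ht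
      have h2 : (u : ℤ) * w = v ^ 4 + 1 := by exact_mod_cast hw.symm
      have h3 : (u : ℤ) ^ 4 * ((w : ℤ) ^ 4 + 1) = (v ^ 4 + 1) ^ 4 + (v * t - 1) := by
        rw [← h2, ← h1]; ring
      rw [h3]
      refine ⟨(v : ℤ) ^ 3 * ((v ^ 4) ^ 3 + 4 * (v ^ 4) ^ 2 + 6 * v ^ 4 + 4) + t, ?_⟩
      ring
    have := hcop.dvd_of_dvd_mul_left hdvd
    exact_mod_cast this
  · exact ⟨u, by rw [hw]; ring⟩

theorem key1 : ∀ r : ZMod 23, (18 : ZMod 23) * r = 22 ^ 4 + 1 → r = 18 := by decide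

theorem key2 : ∀ r : ZMod 23, (22 : ZMod 23) * r = 18 ^ 4 + 1 → r = 18 := by decide

theorem key3 : ∀ r : ZMod 23, (18 : ZMod 23) * r = 18 ^ 4 + 1 → r = 22 := by decide

/-- Three steps of the recursion preserve the residue class of `(41, 137)` modulo `23`. -/
theorem three_steps (u v : ℕ) (h : Good u v) (hu : (u : ZMod 23) = 18) (hv : (v : ZMod 23) = 22) :
    ∃ u' v' : ℕ, Good u' v' ∧ (u' : ZMod 23) = 18 ∧ (v' : ZMod 23) = 22 ∧ v < v' := by
  obtain ⟨w, hw, hvw⟩ := good_step u v h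
  obtain ⟨x, hx, hwx⟩ := good_step v w hvw
  obtain ⟨y, hy, hxy⟩ := good_step w x hwx
  have hw' : (u : ZMod 23) * w = (v : ZMod 23) ^ 4 + 1 := by exact_mod_cast congrArg _ hw
  have hx' : (v : ZMod 23) * x = (w : ZMod 23) ^ 4 + 1 := by exact_mod_cast congrArg _ hx
  have hy' : (w : ZMod 23) * y = (x : ZMod 23) ^ 4 + 1 := by exact_mod_cast congrArg _ hy
  rw [hu, hv] at hw'
  have w18 := key1 _ hw'
  rw [hv, w18] at hx'
  have x18 := key2 _ hx'
  rw [w18, x18] at hy'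
  have y22 := key3 _ hy'
  exact ⟨x, y, hxy, x18, y22, hvw.2.1.trans (hwx.2.1.trans hxy.2.1)⟩

/-- Arbitrarily large good pairs in the residue class. -/
theorem large (B : ℕ) :
    ∃ u v : ℕ, Good u v ∧ (u : ZMod 23) = 18 ∧ (v : ZMod 23) = 22 ∧ B < v := by
  induction B with
  | zero =>
    refine ⟨41, 137, ⟨by norm_num, by norm_num, by norm_num, by norm_num⟩, by decide, by decide,
      by norm_num⟩
  | succ B ih =>
    obtain ⟨u, v, h, hu, hv, hB⟩ := ih
    obtain ⟨u', v', h', hu', hv', hlt⟩ := three_steps u v h hu hv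
    exact ⟨u', v', h', hu', hv', by omega⟩

theorem good_gives (u v : ℕ) (h : Good u v) :
    ∃ n : ℕ, n * (u * v) = (u ^ 2 + v ^ 2) ^ 2 + 1 := by
  obtain ⟨hu, huv, h1, h2⟩ := h
  have hcop : Nat.Coprime u v := by
    have hc : Nat.Coprime u (v ^ 4) := by
      apply Nat.Coprime.symm
      apply Nat.coprime_of_dvd
      intro p hp hpv hpu
      have h3 : p ∣ v ^ 4 + 1 := hpu.trans h1
      have h4 : p ∣ 1 := (Nat.dvd_add_right hpv).1 h3
      exact hp.one_lt.ne' (Nat.dvd_one.1 h4)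
    exact Nat.Coprime.coprime_dvd_right (dvd_pow_self v (by norm_num)) hc
  have h3 : u ∣ (u ^ 2 + v ^ 2) ^ 2 + 1 := by
    have : (u ^ 2 + v ^ 2) ^ 2 + 1 = (v ^ 4 + 1) + u * (u ^ 3 + 2 * u * v ^ 2) := by ring
    rw [this]; exact dvd_add h1 (Dvd.intro _ rfl)
  have h4 : v ∣ (u ^ 2 + v ^ 2) ^ 2 + 1 := by
    have : (u ^ 2 + v ^ 2) ^ 2 + 1 = (u ^ 4 + 1) + v * (v ^ 3 + 2 * v * u ^ 2) := by ring
    rw [this]; exact dvd_add h2 (Dvd.intro _ rfl)
  obtain ⟨n, hn⟩ := hcop.mul_dvd_of_dvd_of_dvd h3 h4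
  exact ⟨n, by rw [hn]; ring⟩

theorem nonsq23 : ∀ n m : ZMod 23, n * (18 * 22) = (18 ^ 2 + 22 ^ 2) ^ 2 + 1 → n ≠ m ^ 2 + 4 := by
  decide

/-- There are infinitely many positive integers `n` such that `n = (a/b + b/a)(c/d + d/c)` for some
positive integers `a, b, c, d`, while `n = (a + 1/a)(b + 1/b)` for no positive integers `a, b`. -/
theorem result :
    {n : ℕ | 0 < n ∧
      (∃ a b c d : ℕ, 0 < a ∧ 0 < b ∧ 0 < c ∧ 0 < d ∧
        (n : ℚ) = ((a : ℚ) / b + (b : ℚ) / a) * ((c : ℚ) / d + (d : ℚ) / c)) ∧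
      ¬ ∃ a b : ℕ, 0 < a ∧ 0 < b ∧
        (n : ℚ) = ((a : ℚ) + (a : ℚ)⁻¹) * ((b : ℚ) + (b : ℚ)⁻¹)}.Infinite := by
  rw [Set.infinite_iff_exists_gt]
  intro B
  obtain ⟨u, v, h, hu, hv, hB⟩ := large B
  obtain ⟨n, hn⟩ := good_gives u v h
  obtain ⟨hu0, huv, h1, h2⟩ := h
  have hv0 : 0 < v := hu0.trans huv
  have hnv : v < n := by
    by_contra hcon
    push Not at hcon
    have e1 : n * (u * v) ≤ v * (v * v) :=
      Nat.mul_le_mul hcon (Nat.mul_le_mul_right _ huv.le)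
    have e2 : v * (v * v) ≤ (u ^ 2 + v ^ 2) ^ 2 := by
      have : 1 ≤ v := hv0
      calc v * (v * v) = (v * (v * v)) * 1 := by ring
        _ ≤ (v * (v * v)) * v := Nat.mul_le_mul_left _ this
        _ = (v ^ 2) ^ 2 := by ring
        _ ≤ (u ^ 2 + v ^ 2) ^ 2 := Nat.pow_le_pow_left (Nat.le_add_left _ _) 2
    omega
  refine ⟨n, ⟨by omega, ?_, ?_⟩, by omega⟩
  · refine ⟨u ^ 2 + v ^ 2, 1, u, v, by positivity, one_pos, hu0, hv0, ?_⟩
    have hu' : (u : ℚ) ≠ 0 := by positivity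
    have hv' : (v : ℚ) ≠ 0 := by positivity
    have hs : ((u : ℚ) ^ 2 + (v : ℚ) ^ 2) ≠ 0 := by positivity
    have hn' : (n : ℚ) * (u * v) = ((u : ℚ) ^ 2 + (v : ℚ) ^ 2) ^ 2 + 1 := by exact_mod_cast hn
    push_cast
    have : (n : ℚ) = (((u : ℚ) ^ 2 + (v : ℚ) ^ 2) ^ 2 + 1) / (u * v) := by
      rw [eq_div_iff (mul_ne_zero hu' hv')]; exact hn'
    rw [this]
    field_simp
  · rintro ⟨a, b, ha, hb, hab⟩
    obtain ⟨m, hm⟩ := integer_form_sq n a b ha hb hab
    have hn' : (n : ZMod 23) * (u * v) = ((u : ZMod 23) ^ 2 + (v : ZMod 23) ^ 2) ^ 2 + 1 := by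
      exact_mod_cast congrArg _ hn
    rw [hu, hv] at hn'
    have hm' : (n : ZMod 23) = (m : ZMod 23) ^ 2 + 4 := by
      have := congrArg (Int.cast : ℤ → ZMod 23) hm
      push_cast at this
      exact this
    exact nonsq23 _ _ hn' hm'

end Pool.Agent.Results.MP_2bef4d_nt.InfinitelyMany
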